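import Pool.Agent.H81.GT.TargetsT

/-!
Energy of the original wave near a Lorentz quadric (MP_ee74d2_an, dimension `d = 3`, `n = 2`):
statements. Space-time `Z n` with light cone coordinates `z = (v, y, w)`, `x = (y, v - w)`,
`t = v + w`, `x² - t² = |y|² - 4vw`.
-/

set_option autoImplicit false

namespace Pool.Agent.H92.EZ

open MeasureTheory Set FourierTransform
open scoped ENNReal NNReal RealInnerProductSpace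
open Pool.Agent.H83.LS
open Pool.Agent.H83.G (Z TF Rg Cls pl Lo Bp TP wt ph ctr)
open Pool.Agent.H81.GT (tz xz zt SymE IsX Gf Ua ac Qz Yz Wz Th)

section

variable {n : ℕ}

/-- the Lorentz form `|x|² - t²` in light cone coordinates -/
noncomputable def Qd (d : Z n) : ℝ := ‖d.2.1‖ ^ 2 - 4 * (d.1 * d.2.2)

/-- the quadric function `α (|x|² - t²) + b·z + c` -/
noncomputable def sgm (α : ℝ) (b : Z n) (c : ℝ) (d : Z n) : ℝ := α * Qd d + ph d b + c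

/-- the null direction of the cap of centre `θ` -/
noncomputable def ldz (θ : EE n) : Z n := (‖θ‖ ^ 2, -((2 : ℝ) • θ), 1)

/-- the derivative of `sgm` in the null direction `θ` -/
noncomputable def dsg (α : ℝ) (b : Z n) (d : Z n) (θ : EE n) : ℝ := ph (ldz θ) b - 4 * α * Qz d θ

end

/-- V1: area of a planar annulus -/
def T_V1 : Prop := ∀ (α c ν : ℝ) (β : EE 2), α ≠ 0 → 0 ≤ ν →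
  volume {y : EE 2 | |α * ‖y‖ ^ 2 + ⟪y, β⟫ + c| ≤ ν} ≤ ENNReal.ofReal (2 * Real.pi * ν / |α|)

/-- V2: volume of a spherical shell in a ball -/
def T_V2 : Prop := ∀ (α c ν D : ℝ) (β : EE 3), α ≠ 0 → 0 ≤ ν → 0 ≤ D →
  volume {x : EE 3 | ‖x‖ ≤ D ∧ |α * ‖x‖ ^ 2 + ⟪x, β⟫ + c| ≤ ν} ≤
    ENNReal.ofReal (4 * Real.pi * D * ν / |α|)

/-- V3: volume of the intersection of a centred shell with a slab -/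
def T_V3 : Prop := ∀ (q μ c ν : ℝ) (β : EE 3), β ≠ 0 → 0 ≤ μ → 0 ≤ ν →
  volume {x : EE 3 | |‖x‖ ^ 2 - q| ≤ μ ∧ |⟪x, β⟫ + c| ≤ ν} ≤
    ENNReal.ofReal (4 * Real.pi * μ * ν / ‖β‖)

/-- EZV: volume of the initial positions near the quadric -/
def T_EZV : Prop := ∃ C : ℝ, 1 ≤ C ∧ ∀ (R s K M α c : ℝ) (b z₀ z₁ : Z 2) (η : EE 2),
  1 ≤ R → 0 < s → s ≤ 1 → 1 ≤ R * s ^ 2 → 1 ≤ K → K * s ≤ 1 → 1 ≤ M → |α| ≤ s ^ 2 → ‖b‖ ≤ 1 →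
  (1 / 2 * s ^ 2 ≤ |α| ∨ 1 / 2 ≤ ‖b‖) → |tz z₀| ≤ 4 * R → ‖η‖ ≤ 5 → ‖z₁ - z₀‖ ≤ 4 * s⁻¹ ^ 2 →
  |dsg α b (z₁ - z₀) η| ≤ 1 / K →
  volume {x : EE 3 | |Qd (zt x 0 - z₀)| ≤ M * (R * s⁻¹ ^ 2) ∧
    |sgm α b c (zt x 0 - z₀)| ≤ M * (R / K)} ≤
    ENNReal.ofReal (C * M ^ 2 * (R ^ 2 * s⁻¹ ^ 2 / Real.sqrt K))

/-- EZA: the initial positions which reach a plank near the quadric are near the quadric -/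
def T_EZA : Prop := ∀ n : ℕ, ∃ C : ℝ, 1 ≤ C ∧ ∀ (R s K lam α c : ℝ) (b z₀ z z' p : Z n)
  (η θ : EE n), 1 ≤ R → 0 < s → s ≤ 1 → 1 ≤ R * s ^ 2 → 1 ≤ K → K * s ≤ 1 → 1 ≤ lam →
  |α| ≤ s ^ 2 → ‖b‖ ≤ 1 → |tz z₀| ≤ 4 * R → ‖z - z₀‖ ≤ 4 * s⁻¹ ^ 2 →
  |sgm α b c (z - z₀)| ≤ s⁻¹ ^ 2 / K → |dsg α b (z - z₀) η| ≤ 1 / K → θ ∈ Th η s →
  ‖Lo η s (z' - z)‖ ≤ lam → tz p = 0 → Wz s (z' - p) θ ≤ lam →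
  |Qd (p - z₀)| ≤ C * lam ^ 6 * (R * s⁻¹ ^ 2) ∧ |sgm α b c (p - z₀)| ≤ C * lam ^ 6 * (R / K)

/-- EZP: energy of all caps at one time -/
def T_EZP : Prop := ∀ (n : ℕ) (κ : ℝ) (a : EE (n + 1) → ℂ), κ ≤ 1 / 8 → SymE n κ a →
  ∃ C : ℝ, 0 < C ∧ ∀ (s t A : ℝ) (f : EE (n + 1) → ℂ) (I : Finset (Fin n → ℤ)), 0 < s → s ≤ 1 →
  BCd A f →
  ∑ k ∈ I, ∫⁻ x, ‖Ua (ac a (ctr s k) s) t f x‖ₑ ^ 2 ≤ ENNReal.ofReal C * ∫⁻ x, ‖f x‖ₑ ^ 2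

/-- EZL: local constancy on one plank -/
def T_EZL : Prop := ∀ (n N L : ℕ) (κ : ℝ) (a : EE (n + 1) → ℂ) (X χ : ℝ → ℂ), N + n + 3 ≤ L →
  κ ≤ 1 / 8 → SymE n κ a → IsX X χ → ∃ C : ℝ, 0 < C ∧ ∀ (R A s : ℝ) (η : EE n) (z : Z n)
  (f : EE (n + 1) → ℂ), ∀ φ ∈ Bp n L, 1 ≤ R → BCd A f → 0 < s → s ≤ 1 → 1 ≤ R * s ^ 2 →
  ‖TP φ η s (Gf X R a f) z‖ₑ ^ 2 ≤ ENNReal.ofReal (C * s ^ (n + 2)) *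
    ∫⁻ z', ‖Ua (ac a η s) (tz z') f (xz z') * χ (tz z' / R)‖ₑ ^ 2 *
      ENNReal.ofReal (wt N (Lo η s (z' - z)))

/-- EZM: the sum over separated planks in a ball -/
def T_EZM : Prop := ∀ (n N : ℕ) (κ : ℝ) (a : EE (n + 1) → ℂ) (X χ : ℝ → ℂ), n + 5 ≤ N →
  κ ≤ 1 / 8 → SymE n κ a → IsX X χ → ∃ C : ℝ, 0 < C ∧ ∀ (R A s : ℝ) (z₀ : Z n)
  (f : EE (n + 1) → ℂ) (P : Finset ((Fin n → ℤ) × Z n)), 1 ≤ R → BCd A f → 0 < s → s ≤ 1 →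
  (∀ p ∈ P, ‖ctr s p.1‖ ≤ 5 ∧ ‖p.2 - z₀‖ ≤ 4 * s⁻¹ ^ 2) →
  (∀ p ∈ P, ∀ p' ∈ P, p.1 = p'.1 → p ≠ p' → 1 ≤ ‖Lo (ctr s p.1) s (p.2 - p'.2)‖) →
  ∑ p ∈ P, ∫⁻ z', ‖Ua (ac a (ctr s p.1) s) (tz z') f (xz z') * χ (tz z' / R)‖ₑ ^ 2 *
      ENNReal.ofReal (wt N (Lo (ctr s p.1) s (z' - p.2))) ≤
    ENNReal.ofReal (C * s⁻¹ ^ 2) * ∫⁻ x, ‖f x‖ₑ ^ 2

/-- EZT: the initial positions far from the plank -/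
def T_EZT : Prop := ∀ (n B : ℕ) (κ δ : ℝ) (a : EE (n + 1) → ℂ) (X χ : ℝ → ℂ), 1 ≤ n →
  κ ≤ 1 / 8 → SymE n κ a → IsX X χ → 0 < δ → ∃ N₀ : ℕ, ∀ N : ℕ, N₀ ≤ N → ∃ C : ℝ, 0 < C ∧
  ∀ (R A s : ℝ) (η : EE n) (z : Z n) (f : EE (n + 1) → ℂ) (E : Set (EE (n + 1))), 1 ≤ R →
  BCd A f → 0 ≤ A → 0 < s → s ≤ 1 → 1 ≤ R * s ^ 2 → ‖η‖ ≤ 5 → |tz z| ≤ 12 * R →
  MeasurableSet E →
  (∀ (z' : Z n) (x : EE (n + 1)) (θ : EE n), θ ∈ Th η s → ‖Lo η s (z' - z)‖ ≤ R ^ δ →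
    Wz s (z' - zt x 0) θ ≤ R ^ δ → x ∈ E) →
  ∫⁻ z', ‖Ua (ac a η s) (tz z') (Eᶜ.indicator f) (xz z') * χ (tz z' / R)‖ₑ ^ 2 *
      ENNReal.ofReal (wt N (Lo η s (z' - z))) ≤
    ENNReal.ofReal (C * (R⁻¹ ^ B * A ^ 2))

/-- EZ: energy of the wave near a Lorentz quadric -/
def T_EZ : Prop := ∀ (κ δ : ℝ) (a : EE 3 → ℂ) (X χ : ℝ → ℂ), κ ≤ 1 / 8 → SymE 2 κ a →
  IsX X χ → 0 < δ → ∃ (L : ℕ) (C : ℝ), 1 ≤ C ∧ ∀ (R A s K h α c : ℝ) (b z₀ : Z 2)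
  (f : EE 3 → ℂ) (P : Finset ((Fin 2 → ℤ) × Z 2)) (φ : (Fin 2 → ℤ) × Z 2 → EE 2 → ℂ),
  C ≤ R → BCd A f → 0 < A → 0 < s → s ≤ 1 → 1 ≤ R * s ^ 2 → 1 ≤ K → K * s ≤ 1 →
  |α| ≤ s ^ 2 → ‖b‖ ≤ 1 → (1 / 2 * s ^ 2 ≤ |α| ∨ 1 / 2 ≤ ‖b‖) → |tz z₀| ≤ 4 * R → A ≤ R * h →
  (∀ p ∈ P, φ p ∈ Bp 2 L ∧ h ≤ ‖TP (φ p) (ctr s p.1) s (Gf X R a f) p.2‖ ∧
    ‖p.2 - z₀‖ ≤ 4 * s⁻¹ ^ 2 ∧ |sgm α b c (p.2 - z₀)| ≤ s⁻¹ ^ 2 / K ∧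
    |dsg α b (p.2 - z₀) (ctr s p.1)| ≤ 1 / K) →
  (∀ p ∈ P, ∀ p' ∈ P, p.1 = p'.1 → p ≠ p' → 1 ≤ ‖Lo (ctr s p.1) s (p.2 - p'.2)‖) →
  (P.card : ℝ) * h ^ 2 ≤ C * R ^ δ * (A ^ 2 * R ^ 2 / Real.sqrt K)

end Pool.Agent.H92.EZ
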