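import Pool.Agent.H81.GT.TargetsT

/-!
Local smoothing (MP_ee74d2_an): the level set estimate for the original wave.
-/

set_option autoImplicit false

namespace Pool.Agent.H92.EZ

open MeasureTheory Set FourierTransform
open scoped ENNReal NNReal RealInnerProductSpace
open Pool.Agent.H83.LS
open Pool.Agent.H83.G (Z TF Sep)
open Pool.Agent.H81.GT (tz SymE IsX Gf)

/-- the level set estimate with exponent `2 + x` for the wave itself, in the slab `R ≤ t ≤ 2R` -/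
def WLx (n : ℕ) (x : ℝ) : Prop := ∀ (κ ε : ℝ) (a : EE (n + 1) → ℂ) (X χ : ℝ → ℂ), κ ≤ 1 / 8 →
  SymE n κ a → IsX X χ → 0 < ε → ∃ C : ℝ, 0 < C ∧ ∀ (R A H : ℝ) (f : EE (n + 1) → ℂ)
  (S : Finset (Z n)), 1 ≤ R → BCd A f → 0 < A → 0 < H → Sep S →
  (∀ z ∈ S, R ≤ tz z ∧ tz z ≤ 2 * R ∧ H ≤ ‖TF (Gf X R a f) z‖) →
  (S.card : ℝ) * H ^ (2 + x) ≤
    C * R ^ ε * A ^ x * R ^ ((n : ℝ) * x / 2 - 1) * ∫ ζ, ‖Gf X R a f ζ‖ ^ 2

end Pool.Agent.H92.EZ
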