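import Pool.Agent.H81.GT.LEVX
import Pool.Agent.H81.GT.SHP
import Pool.Agent.H92.EZ.WLD

/-!
Local smoothing (MP_ee74d2_an): from the level set estimate for the original wave to `SEC`.
-/

set_option autoImplicit false

namespace Pool.Agent.H92.EZ

open MeasureTheory Set FourierTransform
open scoped ENNReal NNReal RealInnerProductSpace
open Pool.Agent.H83.LS
open Pool.Agent.H83.G (Z TF Rg Cls pl Lo Bp TP Sep)
open Pool.Agent.H81.GT

theorem sec_of_WLx (hTX : T_TX) (hCOV : T_COV) (hREP : T_REP) (hGL2 : T_GL2) (hCLS : T_CLS)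
    (hSPK : Pool.Agent.H83.G.T_SPK)
    (hPUX : Pool.Agent.H83.G.T_PUX) (hSCH : Pool.Agent.H83.G.T_SCH) {n : ℕ} {κ x q : ℝ}
    (hn : 1 ≤ n) (hκ : κ ≤ 1 / 8) (hx0 : 0 < x) (hMAIN : WLx n x) (hq' : 2 + x < q) :
    SEC n κ q := by
  intro η a hη ha
  have hq2 : 2 < q := by linarith
  obtain ⟨X, χ, hX⟩ := hTX
  obtain ⟨β, hβ⟩ := hPUX n
  set δ : ℝ := η / (2 * q) with hδ
  have hδ0 : 0 < δ := by positivity
  have hεδ : η / 2 + δ * (q - 2) ≤ η := by
    have : δ * q = η / 2 := by rw [hδ]; field_simp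
    nlinarith
  obtain ⟨Cm0, hCm0, hm⟩ := hMAIN κ (η / 2) a X χ hκ ha hX (by positivity)
  obtain ⟨L, hL⟩ : ∃ L : ℕ, 2 * n + 6 ≤ L := ⟨_, le_rfl⟩
  obtain ⟨Cc, hCc, hc⟩ := hCLS n L κ δ a X χ hn hL hκ ha hX hδ0
  obtain ⟨Cg, hCg, hg⟩ := hGL2 n κ a X χ hκ ha hX
  set Cm : ℝ := Cm0 * Cc ^ (-x) with hCmd
  have hCm : 0 < Cm := by positivity
  obtain ⟨Cs, hCs, hs⟩ := hSPK n L β hβ
  set c₀ : ℝ≥0∞ := volume (Metric.ball (0 : Z n) 1) with hc₀
  have hc₀t : c₀ ≠ ⊤ := by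
    have := haarZ n
    exact measure_ball_lt_top.ne
  set C₁ : ℝ := q / (q - (2 + x)) * (Cs ^ (q - (2 + x)) * Cc ^ (q - 2) * Cm * Cg) with hC₁
  have hC₁0 : 0 < C₁ := by
    have : 0 < q - (2 + x) := by linarith
    positivity
  refine ⟨(2 * c₀ * ENNReal.ofReal C₁).toNNReal, ?_⟩
  intro R A f hR hf
  have hR0 : 0 < R := by linarith
  rw [ENNReal.coe_toNNReal (by finiteness)]
  have hA0 : 0 ≤ A := (norm_nonneg (f 0)).trans (hf.2.1 0)
  rcases hA0.eq_or_lt with hA | hA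
  · have hf0 : f = 0 := by
      funext x
      have := hf.2.1 x
      rw [← hA] at this
      exact norm_le_zero_iff.1 this
    have : ∀ t x, Ua a t f x = 0 := by
      intro t x
      unfold Ua MM
      have h0 : 𝓕 f = 0 := by
        rw [hf0]
        funext ξ
        simp [Real.fourier_eq]
      rw [h0]
      simp
    simp only [this]
    rw [lintegral_congr (g := fun _ => 0)]
    · simp
    · intro t
      rw [lintegral_congr (g := fun _ => 0)]
      · simp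
      · intro x
        rw [enorm_zero, ENNReal.zero_rpow_of_pos (by linarith)]
  set G := Gf X R a f with hG
  obtain ⟨hTC, hRg, hrep⟩ := hREP n κ R A a f X χ hκ ha hX hR hf
  have hcls := hc R A f hR hA hf
  have hA' : 0 < Cc * R ^ δ * A := by positivity
  have hmain := fun (H : ℝ) (hH : 0 < H) (X' : Finset (Z n)) (hX' : Sep X')
    (h : ∀ z ∈ X', R ≤ tz z ∧ tz z ≤ 2 * R ∧ H ≤ ‖TF G z‖) => hm R A H f X' hR hf hA hH hX' h
  set Sl : Set (Z n) := {z | R ≤ tz z ∧ tz z ≤ 2 * R} with hSl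
  have hSlm : MeasurableSet Sl :=
    ((isClosed_le continuous_const tz_cont).inter (isClosed_le tz_cont continuous_const)).measurableSet
  set K : ℝ := Cm * R ^ (η / 2) * (Cc * R ^ δ * A) ^ x * R ^ ((n : ℝ) * x / 2 - 1) *
    ∫ ζ, ‖G ζ‖ ^ 2 with hK
  have hI0 : 0 ≤ ∫ ζ, ‖G ζ‖ ^ 2 := integral_nonneg fun ζ => by positivity
  have hK0 : 0 ≤ K := by positivity
  set B : ℝ := Cs * (Cc * R ^ δ * A) * R ^ ((n : ℝ) / 2) with hB
  have hB0 : 0 < B := by positivity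
  have hsup : ∀ z, ‖TF G z‖ ≤ B :=
    (hs (1 / 4) R (Cc * R ^ δ * A) G (by norm_num) (by norm_num) hR hA' hcls).2
  have hcont : Continuous (TF G) := (hSCH n G hTC).1
  set F : Z n → ℝ := Sl.indicator (fun z => ‖TF G z‖) with hF
  have hFm : Measurable F := hcont.norm.measurable.indicator hSlm
  have hF0 : ∀ z, 0 ≤ F z := fun z => indicator_nonneg (fun _ _ => norm_nonneg _) z
  have hFle : ∀ z, F z ≤ ‖TF G z‖ := fun z => indicator_le_self' (fun _ _ => norm_nonneg _) z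
  have hAx : A ^ x ≤ Cc ^ (-x) * (Cc * R ^ δ * A) ^ x := by
    have hRδ : 1 ≤ R ^ δ := Real.one_le_rpow hR hδ0.le
    have e1 : Cc ^ (-x) * (Cc * R ^ δ * A) ^ x = (R ^ δ) ^ x * A ^ x := by
      rw [Real.mul_rpow (by positivity) hA.le, Real.mul_rpow hCc.le (by positivity),
        Real.rpow_neg hCc.le]
      have : Cc ^ x ≠ 0 := (Real.rpow_pos_of_pos hCc x).ne'
      field_simp
    rw [e1]
    exact le_mul_of_one_le_left (by positivity) (Real.one_le_rpow hRδ hx0.le)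
  have h1 := lev_cake (F := F) hFm hF0 hK0 hB0 (by positivity) hq' (fun H hH X' hX' h => by
    have h2 := hmain H hH X' hX' (fun z hz => by
      have h3 := h z hz
      have h4 : z ∈ Sl := by
        by_contra hcon
        rw [hF, indicator_of_notMem hcon] at h3
        linarith
      exact ⟨h4.1, h4.2, h3.trans (hFle z)⟩)
    refine h2.trans ?_
    rw [hK]
    calc Cm0 * R ^ (η / 2) * A ^ x * R ^ ((n : ℝ) * x / 2 - 1) * ∫ ζ, ‖G ζ‖ ^ 2
        ≤ Cm0 * R ^ (η / 2) * (Cc ^ (-x) * (Cc * R ^ δ * A) ^ x) *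
          R ^ ((n : ℝ) * x / 2 - 1) * ∫ ζ, ‖G ζ‖ ^ 2 := by gcongr
      _ = _ := by rw [hCmd]; ring) (fun z => (hFle z).trans (hsup z))
  set I : ℝ := (∫⁻ x, ‖f x‖ₑ ^ 2).toReal with hI
  have hI0' : 0 ≤ I := ENNReal.toReal_nonneg
  have hft : ∫⁻ x, ‖f x‖ₑ ^ 2 ≠ ⊤ := by
    obtain ⟨ρ, hρ⟩ := hf.2.2
    have : ∫⁻ x, ‖f x‖ₑ ^ 2 ≤ ENNReal.ofReal (A ^ 2) * volume (Metric.closedBall (0 : EE (n + 1)) ρ) := by
      rw [← setLIntegral_const, ← lintegral_indicator measurableSet_closedBall]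
      refine lintegral_mono fun x => ?_
      by_cases hx : x ∈ Metric.closedBall (0 : EE (n + 1)) ρ
      · rw [indicator_of_mem hx, ← ofReal_norm, ← ENNReal.ofReal_pow (norm_nonneg _)]
        apply ENNReal.ofReal_le_ofReal
        have := hf.2.1 x
        have h0 := norm_nonneg (f x)
        nlinarith
      · rw [indicator_of_notMem hx, hρ x (by simpa using hx)]
        simp
    exact ne_top_of_le_ne_top (by
      exact ENNReal.mul_ne_top ENNReal.ofReal_ne_top measure_closedBall_lt_top.ne) this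
  have h2 : K ≤ Cm * R ^ (η / 2) * (Cc * R ^ δ * A) ^ x * R ^ ((n : ℝ) * x / 2 - 1) * (Cg * R * I) := by
    rw [hK]
    gcongr
    exact hg R A f hR hf
  have h3 : q / (q - (2 + x)) * (B ^ (q - (2 + x)) * K) ≤
      C₁ * (R ^ ((n : ℝ) * (q / 2 - 1) + η) * A ^ (q - 2) * I) := by
    have h4 := levx_const (n := n) (x := x) (q := q) (ε := η / 2) (δ := δ) (η := η) hR hA hCc hCm hCg
      hCs hI0' hεδ
    have h5 : 0 < q - (2 + x) := by linarith
    calc q / (q - (2 + x)) * (B ^ (q - (2 + x)) * K) ≤ q / (q - (2 + x)) *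
          (B ^ (q - (2 + x)) *
            (Cm * R ^ (η / 2) * (Cc * R ^ δ * A) ^ x * R ^ ((n : ℝ) * x / 2 - 1) * (Cg * R * I))) := by
          gcongr
      _ ≤ q / (q - (2 + x)) * (Cs ^ (q - (2 + x)) * Cc ^ (q - 2) * Cm * Cg *
            (R ^ ((n : ℝ) * (q / 2 - 1) + η) * A ^ (q - 2) * I)) := by
          gcongr
      _ = _ := by rw [hC₁]; ring
  have hmF : Measurable (fun z : Z n => ENNReal.ofReal (F z ^ q)) :=
    (hFm.pow_const q).ennreal_ofReal
  have h4 : ∫⁻ t in Icc R (2 * R), ∫⁻ x, ‖Ua a t f x‖ₑ ^ q ≤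
      2 * ∫⁻ z, ENNReal.ofReal (F z ^ q) := by
    have h5 := (hCOV n).2.2.1 (fun z => ENNReal.ofReal (F z ^ q)) hmF
    have h6 : 2 * ∫⁻ z, ENNReal.ofReal (F z ^ q) =
        ∫⁻ t : ℝ, ∫⁻ x : EE (n + 1), ENNReal.ofReal (F (zt x t) ^ q) := by
      rw [h5, ← mul_assoc, ENNReal.mul_inv_cancel (by norm_num) (by norm_num), one_mul]
    rw [h6]
    rw [← lintegral_indicator measurableSet_Icc]
    refine lintegral_mono fun t => ?_
    by_cases ht : t ∈ Icc R (2 * R)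
    · rw [indicator_of_mem ht]
      refine lintegral_mono fun x => ?_
      have hmem : zt x t ∈ Sl := by
        show R ≤ tz (zt x t) ∧ tz (zt x t) ≤ 2 * R
        rw [((hCOV n).1 x t).2]
        exact ht
      have hFe : F (zt x t) = ‖TF G (zt x t)‖ := by rw [hF, indicator_of_mem hmem]
      rw [hFe, ← ENNReal.ofReal_rpow_of_nonneg (norm_nonneg _) (by linarith), ofReal_norm]
      refine ENNReal.rpow_le_rpow ?_ (by linarith)
      rw [hrep, ((hCOV n).1 x t).1, ((hCOV n).1 x t).2, enorm_mul]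
      have h7 : 1 ≤ ‖χ (t / R)‖ := hX.2.2.2.1 _ ⟨by rw [le_div_iff₀ hR0]; linarith [ht.1],
        by rw [div_le_iff₀ hR0]; exact ht.2⟩
      have h8 : (1 : ℝ≥0∞) ≤ ‖χ (t / R)‖ₑ := by
        rw [← ofReal_norm]
        exact ENNReal.one_le_ofReal.2 h7
      exact le_mul_of_one_le_right zero_le h8
    · rw [indicator_of_notMem ht]
      exact zero_le
  refine h4.trans ?_
  calc 2 * ∫⁻ z, ENNReal.ofReal (F z ^ q)
      ≤ 2 * (c₀ * ENNReal.ofReal (C₁ * (R ^ ((n : ℝ) * (q / 2 - 1) + η) * A ^ (q - 2) * I))) := by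
        gcongr
        exact h1.trans (mul_le_mul_right (ENNReal.ofReal_le_ofReal h3) _)
    _ = 2 * c₀ * ENNReal.ofReal C₁ *
        ENNReal.ofReal (R ^ ((n : ℝ) * (q / 2 - 1) + η) * A ^ (q - 2)) * ∫⁻ x, ‖f x‖ₑ ^ 2 := by
        have hP0 : 0 ≤ R ^ ((n : ℝ) * (q / 2 - 1) + η) * A ^ (q - 2) := by positivity
        have e7 : ENNReal.ofReal (C₁ * (R ^ ((n : ℝ) * (q / 2 - 1) + η) * A ^ (q - 2) * I)) =
            ENNReal.ofReal C₁ * (ENNReal.ofReal (R ^ ((n : ℝ) * (q / 2 - 1) + η) * A ^ (q - 2)) *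
              ENNReal.ofReal I) := by
          rw [← ENNReal.ofReal_mul hP0, ← ENNReal.ofReal_mul hC₁0.le]
        have e8 : ENNReal.ofReal I = ∫⁻ x, ‖f x‖ₑ ^ 2 := ENNReal.ofReal_toReal hft
        rw [e7, e8]
        ring

end Pool.Agent.H92.EZ
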