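import Pool.Agent.H81.GT.AllX
import Pool.Agent.H92.EZ.WLS

/-!
Local smoothing (MP_ee74d2_an): from the level set estimate for the original wave to Q1.
-/

set_option autoImplicit false

namespace Pool.Agent.H92.EZ

open MeasureTheory Set
open Pool.Agent.H81.GT

theorem secw (hGL2 : T_GL2) (hSPK : Pool.Agent.H83.G.T_SPK) (hPUX : Pool.Agent.H83.G.T_PUX)
    (hSCH : Pool.Agent.H83.G.T_SCH) (hWM : Pool.Agent.H83.G.T_WM)
    (hAVG : Pool.Agent.H83.G.T_AVG) (hLOA : Pool.Agent.H83.G.T_LOA)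
    (hLOB : Pool.Agent.H83.G.T_LOB) {n : ℕ} {x q : ℝ} (hn : 1 ≤ n) (hx : 0 < x)
    (hWL : WLx n x) (hq : 2 + x < q) : SEC n (1 / 8) q := by
  have hACS : T_ACS := Pool.Agent.H34.G.ACS.pf_ACS
  have hCOV : T_COV := Pool.Agent.H56.G.COV.pf_COV
  have hSUB : T_SUB := Pool.Agent.H70.G.SUB.pf_SUB
  have hPIE : T_PIE := Pool.Agent.H35.G.PIE.pf_PIE hSUB Pool.Agent.H83.LS.Chain.kbv hACS
  have hPKB : T_PKB := Pool.Agent.H33.G.pf_PKB hPIE hACS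
  have hPOW : T_POW := Pool.Agent.H59.G.pf_POW
  have hREP : T_REP := Pool.Agent.H33.G.pf_REP hCOV
  have hTAI : T_TAI := Pool.Agent.H49.G.TAI.pf_TAI hPKB hPOW
  have hTRP : T_TRP := Pool.Agent.H34.G.TRP.pf_TRP hPOW hLOA hLOB
  have hTX : T_TX := Pool.Agent.H70.G.TX.pf_TX
  have hVOL : T_VOL := Pool.Agent.H1.G.VOL.pf_VOL
  have hSHP : T_SHP := pf_SHP hCOV hACS hTAI hTRP hVOL Pool.Agent.H83.LS.Chain.ple hLOA hLOB
  have hCLS : T_CLS := pf_CLS hREP hACS hSHP hWM hAVG hLOA hLOB hSCH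
  exact sec_of_WLx hTX hCOV hREP hGL2 hCLS hSPK hPUX hSCH hn le_rfl hx hWL hq

/-- Q1 from the level set estimate for the original wave -/
theorem q1_of_WLx (hGL2 : T_GL2) (hSPK : Pool.Agent.H83.G.T_SPK) (hPUX : Pool.Agent.H83.G.T_PUX)
    (hSCH : Pool.Agent.H83.G.T_SCH) (hWM : Pool.Agent.H83.G.T_WM)
    (hAVG : Pool.Agent.H83.G.T_AVG) (hLOA : Pool.Agent.H83.G.T_LOA)
    (hLOB : Pool.Agent.H83.G.T_LOB) {n : ℕ} {x p : ℝ} (hn : 2 ≤ n) (hx : 0 < x)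
    (hWL : WLx n x) (hp : 2 + x ≤ p) : Q1at n p := by
  have h1 : RES n (2 + x) :=
    res_of_sec (κ := 1 / 8) (by norm_num) (by linarith) fun q hq =>
      secw hGL2 hSPK hPUX hSCH hWM hAVG hLOA hLOB (by omega) hx hWL hq
  have h2 : BLA n p := bla_of_res2 Pool.Agent.H83.LS.Chain.marc Pool.Agent.H83.LS.Chain.ple
    hn (by linarith) hp h1
  exact q1_of_bla Pool.Agent.H83.LS.Chain.radl Pool.Agent.H83.LS.Chain.lowf
    Pool.Agent.H83.LS.Chain.yg Pool.Agent.H83.LS.Chain.ple hn (by linarith) h2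

end Pool.Agent.H92.EZ
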