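import Pool.Agent.H92.EZ.EZ0

/-!
Energy of the original wave near a Lorentz quadric (MP_ee74d2_an): assembly.
-/

set_option autoImplicit false

namespace Pool.Agent.H92.EZ

open MeasureTheory Set FourierTransform
open scoped ENNReal NNReal RealInnerProductSpace
open Pool.Agent.H83.LS
open Pool.Agent.H83.G (Z TF Rg Cls pl Lo Bp TP wt ph ctr)
open Pool.Agent.H81.GT (tz xz zt SymE IsX Gf Ua ac Qz Yz Wz Th)

theorem pf_EZ (EZV : T_EZV) (EZA : T_EZA) (EZL : T_EZL) (EZM : T_EZM) (EZT : T_EZT)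
    (REP : Pool.Agent.H81.GT.T_REP) (PLE : Pool.Agent.H83.LS.T_PLE)
    (ACS : Pool.Agent.H81.GT.T_ACS) : T_EZ := by
  intro κ δ a X χ hκ ha hX hδ
  obtain ⟨CA, hCA, hA⟩ := EZA 2
  obtain ⟨CV, hCV, hV⟩ := EZV
  have hδ' : 0 < δ / 12 := by positivity
  obtain ⟨N0, hN0⟩ := EZT 2 3 κ (δ / 12) a X χ (by norm_num) hκ ha hX hδ'
  set N : ℕ := max N0 7 with hN
  obtain ⟨CT, hCT, hT⟩ := hN0 N (le_max_left _ _)
  obtain ⟨CM, hCM, hM⟩ := EZM 2 N κ a X χ (le_max_right _ _) hκ ha hX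
  obtain ⟨CL, hCL, hL⟩ := EZL 2 N (N + 2 + 3) κ a X χ le_rfl hκ ha hX
  refine ⟨N + 2 + 3, 1 + 4 * CL * CM * CV * CA ^ 2 + 4 * CL * CT, ?_, ?_⟩
  · have h1 : 0 ≤ 4 * CL * CM * CV * CA ^ 2 := by positivity
    have h2 : 0 ≤ 4 * CL * CT := by positivity
    linarith
  intro R A s K h α c b z₀ f P φ hR hf hA0 hs hs1 hRs hK hKs hα hb hab ht hAR hP hsep
  have hp1 : 0 ≤ 4 * CL * CM * CV * CA ^ 2 := by positivity
  have hp2 : 0 ≤ 4 * CL * CT := by positivity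
  have hR1 : 1 ≤ R := by linarith
  have hRT : 4 * CL * CT ≤ R := by linarith
  have hR0 : 0 < R := by linarith
  have hh : 0 < h := by
    by_contra hcon
    nlinarith [not_lt.1 hcon]
  have hsi : 0 < s⁻¹ := inv_pos.2 hs
  have hK0 : 0 < K := by linarith
  have hsK : 0 < Real.sqrt K := Real.sqrt_pos.2 hK0
  rcases P.eq_empty_or_nonempty with rfl | ⟨p₀, hp₀⟩
  · simp only [Finset.card_empty, Nat.cast_zero, zero_mul]
    positivity
  set lam : ℝ := R ^ (δ / 12) with hlam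
  have hlam1 : 1 ≤ lam := Real.one_le_rpow hR1 hδ'.le
  set M : ℝ := CA * lam ^ 6 with hMdef
  have hM1 : 1 ≤ M := one_le_mul_of_one_le_of_one_le hCA (one_le_pow₀ hlam1)
  set E : Set (EE 3) := {x : EE 3 | |Qd (zt x 0 - z₀)| ≤ M * (R * s⁻¹ ^ 2) ∧
    |sgm α b c (zt x 0 - z₀)| ≤ M * (R / K)} with hE
  have hEm : MeasurableSet E := by
    have h1 : Continuous fun x : EE 3 => |Qd (zt x 0 - z₀)| :=
      (Qd_cont.comp ((zt_cont 0).sub continuous_const)).abs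
    have h2 : Continuous fun x : EE 3 => |sgm α b c (zt x 0 - z₀)| :=
      ((sgm_cont α b c).comp ((zt_cont 0).sub continuous_const)).abs
    exact ((isClosed_le h1 continuous_const).inter (isClosed_le h2 continuous_const)).measurableSet
  have hctr : ∀ p ∈ P, ‖ctr s p.1‖ ≤ 5 := by
    intro p hp
    obtain ⟨h1, h2, -⟩ := hP p hp
    refine ctr_le REP hκ ha hX hR1 hf hs hs1 h1 _ p.2 ?_
    intro h3
    rw [h3, norm_zero] at h2
    linarith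
  have hEv : volume E ≤ ENNReal.ofReal (CV * M ^ 2 * (R ^ 2 * s⁻¹ ^ 2 / Real.sqrt K)) := by
    obtain ⟨-, -, h3, -, h5⟩ := hP p₀ hp₀
    exact hV R s K M α c b z₀ p₀.2 (ctr s p₀.1) hR1 hs hs1 hRs hK hKs hM1 hα hb hab ht
      (hctr p₀ hp₀) h3 h5
  obtain ⟨hf1, hf2, -⟩ := Pool.Agent.H81.GT.Ua_split PLE ha 0 hf hEm
  set J : Set (EE 3) → (Fin 2 → ℤ) × Z 2 → ℝ≥0∞ := fun E p =>
    ∫⁻ z', ‖Ua (ac a (ctr s p.1) s) (tz z') (E.indicator f) (xz z') * χ (tz z' / R)‖ₑ ^ 2 *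
      ENNReal.ofReal (wt N (Lo (ctr s p.1) s (z' - p.2))) with hJ
  -- one plank
  have h1 : ∀ p ∈ P, ENNReal.ofReal (h ^ 2) ≤
      ENNReal.ofReal (CL * s ^ 4) * (2 * J E p + 2 * J Eᶜ p) := by
    intro p hp
    obtain ⟨h2, h3, -⟩ := hP p hp
    have h4 := hL R A s (ctr s p.1) p.2 f (φ p) h2 hR1 hf hs hs1 hRs
    have h5 : ENNReal.ofReal (h ^ 2) ≤ ‖TP (φ p) (ctr s p.1) s (Gf X R a f) p.2‖ₑ ^ 2 := by
      rw [← ofReal_norm, ← ENNReal.ofReal_pow (norm_nonneg _)]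
      apply ENNReal.ofReal_le_ofReal
      gcongr
    refine (h5.trans h4).trans ?_
    gcongr
    exact ez_split PLE (ACS 2 κ s (ctr s p.1) a hκ ha hs).1 hX hf hEm _ _ _
  -- the main part
  have h2 : ∑ p ∈ P, J E p ≤ ENNReal.ofReal (CM * s⁻¹ ^ 2 *
      (A ^ 2 * (CV * M ^ 2 * (R ^ 2 * s⁻¹ ^ 2 / Real.sqrt K)))) := by
    have h3 := hM R A s z₀ (E.indicator f) P hR1 hf1 hs hs1
      (fun p hp => ⟨hctr p hp, (hP p hp).2.2.1⟩) hsep
    refine h3.trans ?_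
    have h4 : ∫⁻ x, ‖E.indicator f x‖ₑ ^ 2 ≤ ENNReal.ofReal (A ^ 2) * volume E := by
      rw [← setLIntegral_const, ← lintegral_indicator hEm]
      refine lintegral_mono fun x => ?_
      by_cases hx : x ∈ E
      · rw [indicator_of_mem hx, indicator_of_mem hx, ← ofReal_norm,
          ← ENNReal.ofReal_pow (norm_nonneg _)]
        apply ENNReal.ofReal_le_ofReal
        have := hf.2.1 x
        gcongr
      · rw [indicator_of_notMem hx, indicator_of_notMem hx]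
        simp
    calc ENNReal.ofReal (CM * s⁻¹ ^ 2) * ∫⁻ x, ‖E.indicator f x‖ₑ ^ 2
        ≤ ENNReal.ofReal (CM * s⁻¹ ^ 2) * (ENNReal.ofReal (A ^ 2) *
          ENNReal.ofReal (CV * M ^ 2 * (R ^ 2 * s⁻¹ ^ 2 / Real.sqrt K))) := by
          gcongr
          exact h4.trans (by gcongr)
      _ = _ := by
          rw [← ENNReal.ofReal_mul (by positivity), ← ENNReal.ofReal_mul (by positivity)]
  -- the tail
  have h3 : ∑ p ∈ P, J Eᶜ p ≤ P.card * ENNReal.ofReal (CT * (R⁻¹ ^ 3 * A ^ 2)) := by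
    have h4 : ∀ p ∈ P, J Eᶜ p ≤ ENNReal.ofReal (CT * (R⁻¹ ^ 3 * A ^ 2)) := by
      intro p hp
      obtain ⟨h5, h6, h7, h8, h9⟩ := hP p hp
      refine hT R A s (ctr s p.1) p.2 f E hR1 hf hA0.le hs hs1 hRs (hctr p hp) ?_ hEm ?_
      · have h10 : tz p.2 = tz z₀ + tz (p.2 - z₀) := by
          unfold tz
          simp only [Prod.fst_sub, Prod.snd_sub]
          ring
        have h11 := Pool.Agent.H81.GT.tz_norm (p.2 - z₀)
        have h12 : s⁻¹ ^ 2 ≤ R := by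
          rw [inv_pow, inv_le_iff_one_le_mul₀ (by positivity)]
          exact hRs
        rw [h10]
        refine (abs_add_le _ _).trans ?_
        linarith
      · intro z' x θ hθ hz' hW
        obtain ⟨h10, h11⟩ := hA R s K lam α c b z₀ p.2 z' (zt x 0) (ctr s p.1) θ hR1 hs hs1 hRs hK
          hKs hlam1 hα hb ht h7 h8 h9 hθ hz' (by
            unfold tz zt
            simp only
            ring) hW
        exact ⟨h10, h11⟩
    refine (Finset.sum_le_card_nsmul _ _ _ h4).trans ?_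
    rw [nsmul_eq_mul]
  have h4 : (P.card : ℝ≥0∞) * ENNReal.ofReal (h ^ 2) ≤
      ENNReal.ofReal (CL * s ^ 4) * (2 * (∑ p ∈ P, J E p) + 2 * ∑ p ∈ P, J Eᶜ p) := by
    calc (P.card : ℝ≥0∞) * ENNReal.ofReal (h ^ 2) = ∑ p ∈ P, ENNReal.ofReal (h ^ 2) := by
          rw [Finset.sum_const, nsmul_eq_mul]
      _ ≤ ∑ p ∈ P, ENNReal.ofReal (CL * s ^ 4) * (2 * J E p + 2 * J Eᶜ p) :=
          Finset.sum_le_sum h1
      _ = _ := by
          rw [← Finset.mul_sum, Finset.sum_add_distrib, Finset.mul_sum, Finset.mul_sum]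
  have h5 : (P.card : ℝ≥0∞) * ENNReal.ofReal (h ^ 2) ≤
      ENNReal.ofReal (CL * s ^ 4 * (2 * (CM * s⁻¹ ^ 2 *
      (A ^ 2 * (CV * M ^ 2 * (R ^ 2 * s⁻¹ ^ 2 / Real.sqrt K)))) +
      2 * (P.card * (CT * (R⁻¹ ^ 3 * A ^ 2))))) := by
    refine h4.trans ?_
    have e1 : (P.card : ℝ≥0∞) = ENNReal.ofReal (P.card : ℝ) := by simp
    have q1 : 0 ≤ CM * s⁻¹ ^ 2 * (A ^ 2 * (CV * M ^ 2 * (R ^ 2 * s⁻¹ ^ 2 / Real.sqrt K))) := by
      positivity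
    have q2 : 0 ≤ (P.card : ℝ) * (CT * (R⁻¹ ^ 3 * A ^ 2)) := by positivity
    rw [e1, ← ENNReal.ofReal_mul (by positivity)] at h3
    rw [ENNReal.ofReal_mul (p := CL * s ^ 4) (by positivity),
      ENNReal.ofReal_add (by positivity) (by positivity),
      ENNReal.ofReal_mul (p := 2) (by norm_num), ENNReal.ofReal_mul (p := 2) (by norm_num),
      ENNReal.ofReal_ofNat]
    gcongr
  have e1 : (P.card : ℝ≥0∞) = ENNReal.ofReal (P.card : ℝ) := by simp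
  rw [e1, ← ENNReal.ofReal_mul (by positivity), ENNReal.ofReal_le_ofReal_iff (by positivity)] at h5
  -- numerology
  have hM2 : M ^ 2 = CA ^ 2 * R ^ δ := by
    rw [hMdef, mul_pow, ← pow_mul, hlam, ← Real.rpow_natCast (R ^ (δ / 12)),
      ← Real.rpow_mul hR0.le]
    congr 2
    push_cast
    ring
  have e2 : CL * s ^ 4 * (2 * (CM * s⁻¹ ^ 2 *
      (A ^ 2 * (CV * M ^ 2 * (R ^ 2 * s⁻¹ ^ 2 / Real.sqrt K)))) +
      2 * (P.card * (CT * (R⁻¹ ^ 3 * A ^ 2)))) =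
      2 * CL * CM * CV * CA ^ 2 * R ^ δ * (A ^ 2 * R ^ 2 / Real.sqrt K) +
      2 * CL * CT * s ^ 4 * (P.card * (R⁻¹ ^ 3 * A ^ 2)) := by
    have e3 : s ^ 4 * s⁻¹ ^ 2 * s⁻¹ ^ 2 = 1 := by
      have : s * s⁻¹ = 1 := mul_inv_cancel₀ hs.ne'
      calc s ^ 4 * s⁻¹ ^ 2 * s⁻¹ ^ 2 = (s * s⁻¹) ^ 4 := by ring
        _ = 1 := by rw [this, one_pow]
    rw [hM2]
    generalize R ^ δ = Rd
    generalize Real.sqrt K = k
    calc CL * s ^ 4 * (2 * (CM * s⁻¹ ^ 2 *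
          (A ^ 2 * (CV * (CA ^ 2 * Rd) * (R ^ 2 * s⁻¹ ^ 2 / k)))) +
          2 * (P.card * (CT * (R⁻¹ ^ 3 * A ^ 2)))) =
        (s ^ 4 * s⁻¹ ^ 2 * s⁻¹ ^ 2) * (2 * CL * CM * CV * CA ^ 2 * Rd * (A ^ 2 * R ^ 2 / k)) +
          2 * CL * CT * s ^ 4 * (P.card * (R⁻¹ ^ 3 * A ^ 2)) := by ring
      _ = _ := by rw [e3, one_mul]
  rw [e2] at h5
  have h6 : R⁻¹ ^ 3 * A ^ 2 ≤ R⁻¹ * h ^ 2 := by
    calc R⁻¹ ^ 3 * A ^ 2 ≤ R⁻¹ ^ 3 * (R * h) ^ 2 := by gcongr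
      _ = (R⁻¹ * R) ^ 2 * (R⁻¹ * h ^ 2) := by ring
      _ = R⁻¹ * h ^ 2 := by rw [inv_mul_cancel₀ hR0.ne', one_pow, one_mul]
  have h7 : 2 * CL * CT * s ^ 4 * (P.card * (R⁻¹ ^ 3 * A ^ 2)) ≤ 1 / 2 * (P.card * h ^ 2) := by
    have h8 : s ^ 4 ≤ 1 := pow_le_one₀ hs.le hs1
    calc 2 * CL * CT * s ^ 4 * (P.card * (R⁻¹ ^ 3 * A ^ 2))
        ≤ 2 * CL * CT * 1 * (P.card * (R⁻¹ * h ^ 2)) := by gcongr
      _ = 1 / 2 * ((4 * CL * CT) * R⁻¹) * (P.card * h ^ 2) := by ring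
      _ ≤ 1 / 2 * 1 * (P.card * h ^ 2) := by
          gcongr
          rw [← div_eq_mul_inv, div_le_one hR0]
          exact hRT
      _ = _ := by ring
  have h8 : (P.card : ℝ) * h ^ 2 ≤
      4 * CL * CM * CV * CA ^ 2 * R ^ δ * (A ^ 2 * R ^ 2 / Real.sqrt K) := by
    have h9 : (P.card : ℝ) * h ^ 2 ≤ 2 * CL * CM * CV * CA ^ 2 * R ^ δ *
        (A ^ 2 * R ^ 2 / Real.sqrt K) + 1 / 2 * (P.card * h ^ 2) := by linarith
    have e3 : 4 * CL * CM * CV * CA ^ 2 * R ^ δ * (A ^ 2 * R ^ 2 / Real.sqrt K) =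
        2 * (2 * CL * CM * CV * CA ^ 2 * R ^ δ * (A ^ 2 * R ^ 2 / Real.sqrt K)) := by ring
    linarith
  refine h8.trans ?_
  have h9 : 0 ≤ R ^ δ * (A ^ 2 * R ^ 2 / Real.sqrt K) := by positivity
  calc 4 * CL * CM * CV * CA ^ 2 * R ^ δ * (A ^ 2 * R ^ 2 / Real.sqrt K)
      = (4 * CL * CM * CV * CA ^ 2) * (R ^ δ * (A ^ 2 * R ^ 2 / Real.sqrt K)) := by ring
    _ ≤ (1 + 4 * CL * CM * CV * CA ^ 2 + 4 * CL * CT) *
        (R ^ δ * (A ^ 2 * R ^ 2 / Real.sqrt K)) := by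
        gcongr
        linarith
    _ = _ := by ring

end Pool.Agent.H92.EZ
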