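import Pool.Agent.H83.G.Chain
import Pool.Agent.H81.GT.AllX
import Pool.Agent.H14.EZ.V1
import Pool.Agent.H14.EZ.V2
import Pool.Agent.H97.EZ.V3
import Pool.Agent.H68.EZ.EZV
import Pool.Agent.H49.EZ.EZA
import Pool.Agent.H49.EZ.EZP
import Pool.Agent.H1.EZ.EZL
import Pool.Agent.H65.EZ.EZM
import Pool.Agent.H36.EZ.EZT
import Pool.Agent.H92.EZ.EZ

/-!
Energy of the original wave near a Lorentz quadric (MP_ee74d2_an): closed theorem.
-/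

set_option autoImplicit false

namespace Pool.Agent.H92.EZ

open Pool.Agent.H81.GT

/-- energy of the wave near a Lorentz quadric -/
theorem ez_main : T_EZ := by
  have hACS : T_ACS := Pool.Agent.H34.G.ACS.pf_ACS
  have hCOV : T_COV := Pool.Agent.H56.G.COV.pf_COV
  have hSUB : T_SUB := Pool.Agent.H70.G.SUB.pf_SUB
  have hPIE : T_PIE := Pool.Agent.H35.G.PIE.pf_PIE hSUB Pool.Agent.H83.LS.Chain.kbv hACS
  have hPKB : T_PKB := Pool.Agent.H33.G.pf_PKB hPIE hACS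
  have hPOW : T_POW := Pool.Agent.H59.G.pf_POW
  have hREP : T_REP := Pool.Agent.H33.G.pf_REP hCOV
  have hTAI : T_TAI := Pool.Agent.H49.G.TAI.pf_TAI hPKB hPOW
  have hPLE := Pool.Agent.H83.LS.Chain.ple
  have V1 : T_V1 := Pool.Agent.H14.EZ.pf_V1
  have V2 : T_V2 := Pool.Agent.H14.EZ.pf_V2 V1
  have V3 : T_V3 := Pool.Agent.H97.EZ.pf_V3 V1
  have EZV : T_EZV := Pool.Agent.H68.EZ.pf_EZV V2 V3 hCOV
  have EZA : T_EZA := Pool.Agent.H49.EZ.pf_EZA hPOW Pool.Agent.H83.G.Chain.m_LOB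
  have EZP : T_EZP := Pool.Agent.H49.EZ.pf_EZP hACS Pool.Agent.H83.G.Chain.m_PUS
  have EZL : T_EZL := Pool.Agent.H1.EZ.pf_EZL hACS hREP Pool.Agent.H83.G.Chain.m_LCN
    Pool.Agent.H83.G.Chain.m_SCL Pool.Agent.H83.G.Chain.m_LOA Pool.Agent.H83.G.Chain.m_LOI Pool.Agent.H83.G.Chain.m_CPS
    Pool.Agent.H83.G.Chain.m_WM
  have EZM : T_EZM := Pool.Agent.H65.EZ.pf_EZM EZP hCOV hACS Pool.Agent.H83.G.Chain.m_LOA
    Pool.Agent.H83.G.Chain.m_LOB Pool.Agent.H83.G.Chain.m_WT1 Pool.Agent.H83.G.Chain.m_WT3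
  have EZT : T_EZT := Pool.Agent.H36.EZ.pf_EZT hCOV hACS hTAI hPLE Pool.Agent.H83.G.Chain.m_LOA
    Pool.Agent.H83.G.Chain.m_LOB Pool.Agent.H83.G.Chain.m_LOI Pool.Agent.H83.G.Chain.m_WT1 Pool.Agent.H83.G.Chain.m_WT2
  exact pf_EZ EZV EZA EZL EZM EZT hREP hPLE hACS

end Pool.Agent.H92.EZ
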