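import Pool.Agent.H92.EZ.Targets
import Pool.Agent.H81.GT.SHP

/-!
Energy of the original wave near a Lorentz quadric (MP_ee74d2_an): lemmas for the assembly.
-/

set_option autoImplicit false

namespace Pool.Agent.H92.EZ

open MeasureTheory Set FourierTransform
open scoped ENNReal NNReal RealInnerProductSpace
open Pool.Agent.H83.LS
open Pool.Agent.H83.G (Z TF Rg Cls pl Lo Bp TP wt ph ctr)
open Pool.Agent.H81.GT (tz xz zt SymE IsX Gf Ua ac Qz Yz Wz Th)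

/-- caps far from the support -/
theorem ctr_le (REP : Pool.Agent.H81.GT.T_REP) {n L : ℕ} {κ R A s : ℝ} {a f : EE (n + 1) → ℂ}
    {X χ : ℝ → ℂ} (hκ : κ ≤ 1 / 8) (ha : SymE n κ a) (hX : IsX X χ) (hR : 1 ≤ R) (hf : BCd A f)
    (hs : 0 < s) (hs1 : s ≤ 1) {φ : EE n → ℂ} (hφ : φ ∈ Bp n L) (η : EE n) (z : Z n)
    (h : TP φ η s (Gf X R a f) z ≠ 0) : ‖η‖ ≤ 5 := by
  by_contra hcon
  apply h
  obtain ⟨-, hRg, -⟩ := REP n κ R A a f X χ hκ ha hX hR hf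
  have h0 : ∀ ζ, Pool.Agent.H83.G.cp φ η s ζ * Gf X R a f ζ = 0 := by
    intro ζ
    by_contra hne
    have h1 := left_ne_zero_of_mul hne
    obtain ⟨h2, h3, h4, h5⟩ := hRg ζ (right_ne_zero_of_mul hne)
    have h6 : 0 < ζ.1 := by linarith
    have h7 : ‖s⁻¹ • (ζ.1⁻¹ • ζ.2.1 - η)‖ < 1 := by
      by_contra h8
      exact h1 (hφ.2.1 _ (not_lt.1 h8))
    rw [norm_smul, norm_inv, Real.norm_of_nonneg hs.le, inv_mul_lt_iff₀ hs, mul_one] at h7
    have h8 : ‖ζ.1⁻¹ • ζ.2.1‖ ≤ 5 / 4 := by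
      rw [norm_smul, norm_inv, Real.norm_of_nonneg h6.le, inv_mul_le_iff₀ h6]
      linarith
    have h9 : ‖η‖ ≤ ‖ζ.1⁻¹ • ζ.2.1‖ + ‖ζ.1⁻¹ • ζ.2.1 - η‖ := by
      have : η = ζ.1⁻¹ • ζ.2.1 - (ζ.1⁻¹ • ζ.2.1 - η) := by abel
      calc ‖η‖ = ‖ζ.1⁻¹ • ζ.2.1 - (ζ.1⁻¹ • ζ.2.1 - η)‖ := by rw [← this]
        _ ≤ _ := norm_sub_le _ _
    exact hcon (by linarith)
  unfold TP TF
  simp [h0]

theorem Qd_cont {n : ℕ} : Continuous (Qd : Z n → ℝ) := by
  unfold Qd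
  fun_prop

theorem sgm_cont {n : ℕ} (α : ℝ) (b : Z n) (c : ℝ) : Continuous (sgm α b c : Z n → ℝ) := by
  unfold sgm Pool.Agent.H83.G.ph
  have := Qd_cont (n := n)
  fun_prop

theorem zt_cont {n : ℕ} (t : ℝ) : Continuous fun x : EE (n + 1) => zt x t := by
  unfold zt
  exact Continuous.prodMk (by fun_prop)
    (Continuous.prodMk Pool.Agent.H54.LS.continuous_pr (by fun_prop))

theorem wt_cont {n : ℕ} (N : ℕ) (η : EE n) (s : ℝ) (z : Z n) :
    Continuous fun z' : Z n => wt N (Lo η s (z' - z)) := by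
  have h1 : Continuous fun z' : Z n => Lo η s (z' - z) := by
    unfold Lo
    fun_prop
  unfold wt
  refine Continuous.inv₀ (by fun_prop) ?_
  intro z'
  have := norm_nonneg (Lo η s (z' - z))
  positivity

/-- the sum over the two parts of the data -/
theorem ez_split (PLE : Pool.Agent.H83.LS.T_PLE) {n N : ℕ} {κ R A : ℝ} {b f : EE (n + 1) → ℂ}
    {X χ : ℝ → ℂ} (hb : SymE n κ b) (hX : IsX X χ) (hf : BCd A f) {E : Set (EE (n + 1))}
    (hE : MeasurableSet E) (η : EE n) (s : ℝ) (z : Z n) :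
    ∫⁻ z', ‖Ua b (tz z') f (xz z') * χ (tz z' / R)‖ₑ ^ 2 *
      ENNReal.ofReal (wt N (Lo η s (z' - z))) ≤
    2 * (∫⁻ z', ‖Ua b (tz z') (E.indicator f) (xz z') * χ (tz z' / R)‖ₑ ^ 2 *
      ENNReal.ofReal (wt N (Lo η s (z' - z)))) +
    2 * (∫⁻ z', ‖Ua b (tz z') (Eᶜ.indicator f) (xz z') * χ (tz z' / R)‖ₑ ^ 2 *
      ENNReal.ofReal (wt N (Lo η s (z' - z)))) := by
  obtain ⟨hf1, hf2, -⟩ := Pool.Agent.H81.GT.Ua_split PLE hb 0 hf hE
  have hw := (wt_cont N η s z).measurable.ennreal_ofReal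
  have hm : Measurable fun z' : Z n => ‖Ua b (tz z') (E.indicator f) (xz z') *
      χ (tz z' / R)‖ₑ ^ 2 * ENNReal.ofReal (wt N (Lo η s (z' - z))) := by
    have h1 := Pool.Agent.H81.GT.Ua_zcont hb (Pool.Agent.H19.LS.BCd_int A _ hf1)
    have h2 : Continuous fun z : Z n => χ (tz z / R) :=
      hX.2.2.2.2.1.comp (Pool.Agent.H81.GT.tz_cont.div_const R)
    exact ((h1.mul h2).enorm.measurable.pow_const 2).mul hw
  have h5 : ∀ u v : ℂ, ‖u + v‖ₑ ^ 2 ≤ 2 * ‖u‖ₑ ^ 2 + 2 * ‖v‖ₑ ^ 2 := by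
    intro u v
    rw [← ofReal_norm, ← ofReal_norm, ← ofReal_norm, ← ENNReal.ofReal_pow (norm_nonneg _),
      ← ENNReal.ofReal_pow (norm_nonneg _), ← ENNReal.ofReal_pow (norm_nonneg _),
      ← ENNReal.ofReal_ofNat 2, ← ENNReal.ofReal_mul (by norm_num),
      ← ENNReal.ofReal_mul (by norm_num), ← ENNReal.ofReal_add (by positivity)
      (by positivity)]
    apply ENNReal.ofReal_le_ofReal
    have := norm_add_le u v
    nlinarith [norm_nonneg (u + v), sq_nonneg (‖u‖ - ‖v‖), norm_nonneg u, norm_nonneg v]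
  rw [← lintegral_const_mul' _ _ (by norm_num), ← lintegral_const_mul' _ _ (by norm_num),
    ← lintegral_add_left (hm.const_mul 2)]
  refine lintegral_mono fun z' => ?_
  obtain ⟨-, -, hsp⟩ := Pool.Agent.H81.GT.Ua_split PLE hb (tz z') hf hE
  simp only
  rw [hsp (xz z'), add_mul]
  calc ‖Ua b (tz z') (E.indicator f) (xz z') * χ (tz z' / R) +
        Ua b (tz z') (Eᶜ.indicator f) (xz z') * χ (tz z' / R)‖ₑ ^ 2 *
        ENNReal.ofReal (wt N (Lo η s (z' - z)))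
      ≤ (2 * ‖Ua b (tz z') (E.indicator f) (xz z') * χ (tz z' / R)‖ₑ ^ 2 +
        2 * ‖Ua b (tz z') (Eᶜ.indicator f) (xz z') * χ (tz z' / R)‖ₑ ^ 2) *
        ENNReal.ofReal (wt N (Lo η s (z' - z))) := by
        gcongr
        exact h5 _ _
    _ = _ := by ring


end Pool.Agent.H92.EZ
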